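import Mathlib

/-!
# The theorem of Erdős and Gallai on degree sequences

The proof takes a graph with degrees at most `d` whose degree vector is lexicographically maximal
(a variant of the proof of Tripathi, Venugopalan and West).
-/

namespace Pool.Agent.V11225.IM

open Finset Classical

variable {V : Type} [Fintype V]

/-- the degree -/
noncomputable def dg (G : SimpleGraph V) (v : V) : ℕ := (univ.filter fun w => G.Adj v w).card

/-- add an edge -/
def addE (G : SimpleGraph V) (a b : V) : SimpleGraph V where
  Adj x y := G.Adj x y ∨ (x ≠ y ∧ ((x = a ∧ y = b) ∨ (x = b ∧ y = a)))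
  symm := ⟨by
    rintro x y (h | ⟨h1, h2⟩)
    · exact Or.inl h.symm
    · exact Or.inr ⟨h1.symm, by tauto⟩⟩
  loopless := ⟨by
    rintro x (h | ⟨h1, _⟩)
    · exact h.ne rfl
    · exact h1 rfl⟩

/-- remove an edge -/
def delE (G : SimpleGraph V) (a b : V) : SimpleGraph V where
  Adj x y := G.Adj x y ∧ ¬((x = a ∧ y = b) ∨ (x = b ∧ y = a))
  symm := ⟨by
    rintro x y ⟨h1, h2⟩
    exact ⟨h1.symm, by tauto⟩⟩
  loopless := ⟨by
    rintro x ⟨h, _⟩
    exact h.ne rfl⟩

theorem adj_add {G : SimpleGraph V} {a b x y : V} : (addE G a b).Adj x y ↔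
    G.Adj x y ∨ (x ≠ y ∧ ((x = a ∧ y = b) ∨ (x = b ∧ y = a))) := Iff.rfl

theorem adj_del {G : SimpleGraph V} {a b x y : V} : (delE G a b).Adj x y ↔
    G.Adj x y ∧ ¬((x = a ∧ y = b) ∨ (x = b ∧ y = a)) := Iff.rfl

/-- indicator -/
noncomputable def I (v a : V) : ℕ := if v = a then 1 else 0

theorem dg_add {G : SimpleGraph V} {a b : V} (hab : a ≠ b) (hn : ¬ G.Adj a b) (v : V) :
    dg (addE G a b) v = dg G v + I v a + I v b := by
  unfold dg I
  by_cases h1 : v = a
  · subst h1
    rw [if_pos rfl, if_neg hab]
    have : (univ.filter fun w => (addE G v b).Adj v w) =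
        insert b (univ.filter fun w => G.Adj v w) := by
      ext w
      simp only [mem_filter, mem_univ, true_and, mem_insert, adj_add]
      constructor
      · rintro (h | ⟨h1, h2⟩)
        · exact Or.inr h
        · rcases h2 with h2 | h2
          · exact Or.inl h2
          · exact absurd h2.1 hab
      · rintro (h | h)
        · subst h
          exact Or.inr ⟨hab, by simp⟩
        · exact Or.inl h
    rw [this, card_insert_of_notMem]
    simpa using hn
  · by_cases h2 : v = b
    · subst h2
      rw [if_neg h1, if_pos rfl]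
      have : (univ.filter fun w => (addE G a v).Adj v w) =
          insert a (univ.filter fun w => G.Adj v w) := by
        ext w
        simp only [mem_filter, mem_univ, true_and, mem_insert, adj_add]
        constructor
        · rintro (h | ⟨_, h2⟩)
          · exact Or.inr h
          · rcases h2 with h2 | h2
            · exact absurd h2.1 h1
            · exact Or.inl h2
        · rintro (h | h)
          · subst h
            exact Or.inr ⟨h1, by simp⟩
          · exact Or.inl h
      rw [this, card_insert_of_notMem]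
      simp only [mem_filter, mem_univ, true_and]
      exact fun h => hn h.symm
    · rw [if_neg h1, if_neg h2]
      congr 1
      ext w
      simp only [mem_filter, mem_univ, true_and, adj_add]
      tauto

theorem dg_del {G : SimpleGraph V} {a b : V} (hn : G.Adj a b) (v : V) :
    dg (delE G a b) v + I v a + I v b = dg G v := by
  have h1 : addE (delE G a b) a b = G := by
    ext x y
    rw [adj_add, adj_del]
    constructor
    · rintro (h | ⟨_, ⟨rfl, rfl⟩ | ⟨rfl, rfl⟩⟩)
      · exact h.1
      · exact hn
      · exact hn.symm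
    · intro h
      by_cases hc : (x = a ∧ y = b) ∨ (x = b ∧ y = a)
      · exact Or.inr ⟨h.ne, hc⟩
      · exact Or.inl ⟨h, hc⟩
  have h2 := dg_add (G := delE G a b) hn.ne (by rw [adj_del]; tauto) v
  rw [h1] at h2
  exact h2.symm

theorem I_self (v : V) : I v v = 1 := if_pos rfl

theorem I_ne {v a : V} (h : v ≠ a) : I v a = 0 := if_neg h

theorem I_le (v a : V) : I v a ≤ 1 := by unfold I; split_ifs <;> omega

theorem sum_dg_even (G : SimpleGraph V) : Even (∑ v, dg G v) := by
  have h1 : ∀ v, dg G v = G.degree v := by
    intro v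
    unfold dg
    rw [← SimpleGraph.card_neighborFinset_eq_degree]
    congr 1
    ext w
    simp
  simp only [h1]
  rw [SimpleGraph.sum_degrees_eq_twice_card_edges]
  exact even_two_mul _

/-- if `v` has larger degree than `r` then it has a neighbour which is neither `r` nor adjacent
to `r` -/
theorem exists_nb {G : SimpleGraph V} {i r : V} (hne : i ≠ r) (h : dg G r < dg G i) :
    ∃ u, G.Adj i u ∧ ¬ G.Adj r u ∧ u ≠ r := by
  by_contra hc
  push Not at hc
  by_cases hir : G.Adj i r
  · have hsub : (univ.filter fun w => G.Adj i w).erase r ⊆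
        (univ.filter fun w => G.Adj r w).erase i := by
      intro w hw
      rw [mem_erase, mem_filter] at hw ⊢
      obtain ⟨h1, _, h2⟩ := hw
      refine ⟨h2.ne.symm, mem_univ _, ?_⟩
      by_contra h3
      exact h1 (hc w h2 h3)
    have h1 := card_le_card hsub
    rw [card_erase_of_mem (by simpa using hir), card_erase_of_mem (by simpa using hir.symm)] at h1
    unfold dg at h
    have h2 : 0 < (univ.filter fun w => G.Adj r w).card :=
      card_pos.2 ⟨i, by simpa using hir.symm⟩
    omega
  · have hsub : (univ.filter fun w => G.Adj i w) ⊆ (univ.filter fun w => G.Adj r w) := by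
      intro w hw
      rw [mem_filter] at hw ⊢
      obtain ⟨_, h2⟩ := hw
      refine ⟨mem_univ _, ?_⟩
      by_contra h3
      have := hc w h2 h3
      subst this
      exact hir h2
    have h1 := card_le_card hsub
    unfold dg at h
    omega

section main

variable {n : ℕ} {d : Fin n → ℕ} {G : SimpleGraph (Fin n)} {r : Fin n}

/-- `G` is locally maximal at `r` -/
def LocMax (d : Fin n → ℕ) (G : SimpleGraph (Fin n)) (r : Fin n) : Prop :=
  ∀ G' : SimpleGraph (Fin n), (∀ v, dg G' v ≤ d v) → (∀ i < r, dg G' i = dg G i) →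
    dg G' r ≤ dg G r

variable (hd : Antitone d) (hG : ∀ v, dg G v ≤ d v) (hr : dg G r < d r)
  (hi : ∀ i < r, dg G i = d i) (hmax : LocMax d G r)

include hd hr hi in
theorem deg_gt {i : Fin n} (h : i < r) : dg G r < dg G i := by
  rw [hi i h]
  exact lt_of_lt_of_le hr (hd h.le)

include hG hr hmax in
/-- deficient vertices are adjacent to `r` -/
theorem adj_of_def {k : Fin n} (hk : r < k) (h : dg G k < d k) : G.Adj r k := by
  by_contra hn
  have h1 := hmax (addE G r k) (fun v => ?_) (fun i hir => ?_)
  · rw [dg_add hk.ne hn, I_self, I_ne hk.ne] at h1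
    omega
  · rw [dg_add hk.ne hn]
    by_cases e1 : v = r
    · subst e1
      rw [I_self, I_ne hk.ne]; omega
    · by_cases e2 : v = k
      · subst e2
        rw [I_self, I_ne e1]; omega
      · rw [I_ne e1, I_ne e2]
        exact hG v
  · rw [dg_add hk.ne hn, I_ne hir.ne, I_ne (hir.trans hk).ne]
    omega

include hG hr hmax in
/-- vertices with a later neighbour are adjacent to `r` -/
theorem adj_of_nb {k b : Fin n} (hk : r < k) (hb : r < b) (h : G.Adj k b) : G.Adj r k := by
  by_contra hn
  have hn' : ¬ (delE G k b).Adj r k := by rw [adj_del]; tauto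
  have e : ∀ v, dg (addE (delE G k b) r k) v + I v b = dg G v + I v r := by
    intro v
    have e1 := dg_del h v
    have e2 := dg_add hk.ne hn' v
    omega
  have h1 := hmax (addE (delE G k b) r k) (fun v => ?_) (fun i hir => ?_)
  · have := e r
    rw [I_self, I_ne hb.ne] at this
    omega
  · have e1 := e v
    by_cases e2 : v = r
    · subst e2
      rw [I_self] at e1
      omega
    · rw [I_ne e2] at e1
      have := hG v
      omega
  · have e1 := e i
    rw [I_ne hir.ne, I_ne (hir.trans hb).ne] at e1
    omega

include hd hG hr hi hmax in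
/-- the earlier vertices are adjacent to `r` -/
theorem claim1 (heven : Even (∑ i, d i)) {i : Fin n} (hir : i < r) : G.Adj i r := by
  by_contra hn
  obtain ⟨u, hu1, hu2, hu3⟩ := exists_nb hir.ne (deg_gt hd hr hi hir)
  have hui : u ≠ i := hu1.ne.symm
  -- G' = G - iu + ur + ir
  have hn1 : ¬ (delE G i u).Adj u r := by rw [adj_del]; exact fun h => hu2 h.1.symm
  have hn2 : ¬ (addE (delE G i u) u r).Adj i r := by
    rw [adj_add, adj_del]
    rintro (h | ⟨_, h⟩)
    · exact hn h.1
    · rcases h with h | h
      · exact hui h.1.symm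
      · exact hir.ne h.1
  have e : ∀ v, dg (addE (addE (delE G i u) u r) i r) v = dg G v + 2 * I v r := by
    intro v
    have e1 := dg_del hu1 v
    have e2 := dg_add hu3 hn1 v
    have e3 := dg_add hir.ne hn2 v
    omega
  by_cases h2 : dg G r + 2 ≤ d r
  · have h1 := hmax (addE (addE (delE G i u) u r) i r)
        (fun v => ?_) (fun j hj => ?_)
    · have := e r
      rw [I_self] at this
      omega
    · rw [e v]
      by_cases e2 : v = r
      · subst e2
        rw [I_self]
        omega
      · rw [I_ne e2]
        exact hG v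
    · rw [e j, I_ne hj.ne]
      omega
  · -- a later neighbour of `r`
    by_cases h3 : ∃ k, r < k ∧ G.Adj r k
    · obtain ⟨k, hk, hkr⟩ := h3
      have hku : k ≠ u := by
        rintro rfl
        exact hu2 hkr
      have hki : k ≠ i := by
        rintro rfl
        exact absurd hk (not_lt.2 hir.le)
      have ha : (addE (addE (delE G i u) u r) i r).Adj r k := by
        rw [adj_add, adj_add, adj_del]
        refine Or.inl (Or.inl ⟨hkr, ?_⟩)
        rintro (h | h)
        · exact hir.ne h.1.symm
        · exact hki h.2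
      have e' : ∀ v, dg (delE (addE (addE (delE G i u) u r) i r) r k) v + I v k =
          dg G v + I v r := by
        intro v
        have e1 := dg_del ha v
        have e2 := e v
        omega
      have h1 := hmax (delE (addE (addE (delE G i u) u r) i r) r k)
        (fun v => ?_) (fun j hj => ?_)
      · have := e' r
        rw [I_self, I_ne hk.ne] at this
        omega
      · have e1 := e' v
        by_cases e2 : v = r
        · subst e2
          rw [I_self] at e1
          omega
        · rw [I_ne e2] at e1
          have := hG v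
          omega
      · have e1 := e' j
        rw [I_ne hj.ne, I_ne (hj.trans hk).ne] at e1
        omega
    · -- parity
      push Not at h3
      have hk : ∀ k, k ≠ r → dg G k = d k := by
        intro k hk
        rcases lt_or_gt_of_ne hk with h | h
        · exact hi k h
        · by_contra hne
          exact h3 k h (adj_of_def hG hr hmax h (lt_of_le_of_ne (hG k) hne))
      have hs : ∑ v, d v = ∑ v, dg G v + 1 := by
        rw [← Finset.add_sum_erase univ d (mem_univ r),
          ← Finset.add_sum_erase univ (dg G) (mem_univ r)]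
        have : ∑ v ∈ univ.erase r, d v = ∑ v ∈ univ.erase r, dg G v :=
          sum_congr rfl fun v hv => (hk v (mem_erase.1 hv).1).symm
        rw [this]
        omega
      rw [hs] at heven
      have h4 := sum_dg_even G
      rw [Nat.even_add_one] at heven
      exact heven h4

include hd hG hr hi hmax in
theorem claim2 (heven : Even (∑ i, d i)) {k : Fin n} (hk : r < k)
    (h : ¬ G.Adj r k ∨ ∃ i < r, ¬ G.Adj i k) :
    dg G k = d k ∧ ∀ b, r < b → ¬ G.Adj k b := by
  by_contra hc
  have hc' : dg G k < d k ∨ ∃ b, r < b ∧ G.Adj k b := by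
    by_contra h2
    push Not at h2
    exact hc ⟨le_antisymm (hG k) h2.1, h2.2⟩
  have hrk : G.Adj r k := by
    rcases hc' with h2 | ⟨b, hb, h2⟩
    · exact adj_of_def hG hr hmax hk h2
    · exact adj_of_nb hG hr hmax hk hb h2
  obtain ⟨i, hir, hik⟩ : ∃ i < r, ¬ G.Adj i k := by
    rcases h with h | h
    · exact absurd hrk h
    · exact h
  obtain ⟨u, hu1, hu2, hu3⟩ := exists_nb hir.ne (deg_gt hd hr hi hir)
  have hui : u ≠ i := hu1.ne.symm
  have hku : k ≠ u := by
    rintro rfl
    exact hu2 hrk
  have hik' : i ≠ k := (hir.trans hk).ne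
  -- G - iu + ik + ur
  have hn1 : ¬ (delE G i u).Adj i k := by rw [adj_del]; exact fun h => hik h.1
  have hn2 : ¬ (addE (delE G i u) i k).Adj u r := by
    rw [adj_add, adj_del]
    rintro (h | ⟨_, h⟩)
    · exact hu2 h.1.symm
    · rcases h with h | h
      · exact hui h.1
      · exact hku h.1.symm
  have e : ∀ v, dg (addE (addE (delE G i u) i k) u r) v = dg G v + I v r + I v k := by
    intro v
    have e1 := dg_del hu1 v
    have e2 := dg_add hik' hn1 v
    have e3 := dg_add hu3 hn2 v
    omega
  rcases hc' with h2 | ⟨b, hb, h2⟩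
  · have h1 := hmax (addE (addE (delE G i u) i k) u r)
        (fun v => ?_) (fun j hj => ?_)
    · have := e r
      rw [I_self, I_ne hk.ne] at this
      omega
    · rw [e v]
      by_cases e2 : v = r
      · subst e2
        rw [I_self, I_ne hk.ne]
        omega
      · by_cases e3 : v = k
        · subst e3
          rw [I_self, I_ne e2]
          omega
        · rw [I_ne e2, I_ne e3]
          exact hG v
    · rw [e j, I_ne hj.ne, I_ne (hj.trans hk).ne]
      omega
  · have ha : (addE (addE (delE G i u) i k) u r).Adj k b := by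
      rw [adj_add, adj_add, adj_del]
      refine Or.inl (Or.inl ⟨h2, ?_⟩)
      rintro (h | h)
      · exact hik' h.1.symm
      · exact hku h.1
    have e' : ∀ v, dg (delE (addE (addE (delE G i u) i k) u r) k b) v + I v b =
        dg G v + I v r := by
      intro v
      have e1 := dg_del ha v
      have e2 := e v
      omega
    have h1 := hmax (delE (addE (addE (delE G i u) i k) u r) k b)
        (fun v => ?_) (fun j hj => ?_)
    · have := e' r
      rw [I_self, I_ne hb.ne] at this
      omega
    · have e1 := e' v
      by_cases e2 : v = r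
      · subst e2
        rw [I_self] at e1
        omega
      · rw [I_ne e2] at e1
        have := hG v
        omega
    · have e1 := e' j
      rw [I_ne hj.ne, I_ne (hj.trans hb).ne] at e1
      omega

include hd hG hr hi hmax in
theorem claim3 (heven : Even (∑ i, d i)) {i j : Fin n} (hir : i < r) (hjr : j < r)
    (hij : i ≠ j) : G.Adj i j := by
  by_contra hn
  obtain ⟨u, hu1, hu2, hu3⟩ := exists_nb hir.ne (deg_gt hd hr hi hir)
  obtain ⟨w, hw1, hw2, hw3⟩ := exists_nb hjr.ne (deg_gt hd hr hi hjr)
  have hur : r < u := by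
    rcases lt_trichotomy u r with h | h | h
    · exact absurd (claim1 hd hG hr hi hmax heven h).symm hu2
    · exact absurd h hu3
    · exact h
  have hwr : r < w := by
    rcases lt_trichotomy w r with h | h | h
    · exact absurd (claim1 hd hG hr hi hmax heven h).symm hw2
    · exact absurd h hw3
    · exact h
  -- G - iu - jw + ij + ur
  have ha : (delE G i u).Adj j w := by
    rw [adj_del]
    refine ⟨hw1, ?_⟩
    rintro (h | h)
    · exact hij h.1.symm
    · exact absurd h.1 (hjr.trans hur).ne
  have hn1 : ¬ (delE (delE G i u) j w).Adj i j := by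
    rw [adj_del, adj_del]
    exact fun h => hn h.1.1
  have hn2 : ¬ (addE (delE (delE G i u) j w) i j).Adj u r := by
    rw [adj_add, adj_del, adj_del]
    rintro (h | ⟨_, h⟩)
    · exact hu2 h.1.1.symm
    · rcases h with h | h
      · exact hir.trans hur |>.ne h.1.symm
      · exact hjr.trans hur |>.ne h.1.symm
  have e : ∀ v, dg (addE (addE (delE (delE G i u) j w) i j) u r) v + I v w =
      dg G v + I v r := by
    intro v
    have e1 := dg_del hu1 v
    have e2 := dg_del ha v
    have e3 := dg_add hij hn1 v
    have e4 := dg_add hu3 hn2 v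
    omega
  have h1 := hmax (addE (addE (delE (delE G i u) j w) i j) u r)
        (fun v => ?_) (fun l hl => ?_)
  · have := e r
    rw [I_self, I_ne hwr.ne] at this
    omega
  · have e1 := e v
    by_cases e2 : v = r
    · subst e2
      rw [I_self] at e1
      omega
    · rw [I_ne e2] at e1
      have := hG v
      omega
  · have e1 := e l
    rw [I_ne hl.ne, I_ne (hl.trans hwr).ne] at e1
    omega

include hd hG hr hi hmax in
theorem no_def (heven : Even (∑ i, d i)) (h : ∀ S : Finset (Fin n),
    ∑ i ∈ S, d i ≤ S.card * (S.card - 1) + ∑ i ∈ Sᶜ, min (d i) S.card) : False := by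
  obtain ⟨S, hS⟩ : ∃ S : Finset (Fin n), ∀ i, i ∈ S ↔ i ≤ r :=
    ⟨univ.filter fun i => i ≤ r, fun i => by simp⟩
  have hS' : ∀ i, i ∈ Sᶜ ↔ r < i := by intro i; rw [mem_compl, hS, not_le]
  -- `S` is a clique
  have hcl : ∀ i ∈ S, ∀ j ∈ S, i ≠ j → G.Adj i j := by
    intro i hiS j hjS hij
    rw [hS] at hiS hjS
    rcases hiS.lt_or_eq with h1 | h1 <;> rcases hjS.lt_or_eq with h2 | h2
    · exact claim3 hd hG hr hi hmax heven h1 h2 hij
    · subst h2
      exact claim1 hd hG hr hi hmax heven h1
    · subst h1
      exact (claim1 hd hG hr hi hmax heven h2).symm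
    · exact absurd (h1.trans h2.symm) hij
  -- outer vertices
  have hout : ∀ k ∈ Sᶜ, min (d k) S.card ≤ (S.filter fun i => G.Adj k i).card := by
    intro k hk
    rw [hS'] at hk
    by_cases hc : ¬ G.Adj r k ∨ ∃ i < r, ¬ G.Adj i k
    · obtain ⟨h1, h2⟩ := claim2 hd hG hr hi hmax heven hk hc
      refine (min_le_left _ _).trans ?_
      rw [← h1]
      unfold dg
      refine card_le_card fun w hw => ?_
      rw [mem_filter] at hw ⊢
      refine ⟨?_, hw.2⟩
      rw [hS]
      by_contra h3
      exact h2 w (not_le.1 h3) hw.2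
    · push Not at hc
      refine (min_le_right _ _).trans ?_
      refine card_le_card fun w hw => ?_
      rw [mem_filter]
      refine ⟨hw, ?_⟩
      rw [hS] at hw
      rcases hw.lt_or_eq with h1 | h1
      · exact (hc.2 w h1).symm
      · subst h1
        exact hc.1.symm
  have hdeg : ∀ i ∈ S, dg G i = (S.card - 1) + (Sᶜ.filter fun k => G.Adj k i).card := by
    intro i hiS
    unfold dg
    have e1 : (univ.filter fun w => G.Adj i w) = S.erase i ∪ (Sᶜ.filter fun k => G.Adj k i) := by
      ext w
      rw [mem_filter, mem_union, mem_erase, mem_filter]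
      constructor
      · rintro ⟨_, h1⟩
        by_cases hw : w ∈ S
        · exact Or.inl ⟨h1.ne.symm, hw⟩
        · exact Or.inr ⟨mem_compl.2 hw, h1.symm⟩
      · rintro (⟨h1, h2⟩ | ⟨_, h2⟩)
        · exact ⟨mem_univ _, hcl i hiS w h2 (Ne.symm h1)⟩
        · exact ⟨mem_univ _, h2.symm⟩
    rw [e1, card_union_of_disjoint, card_erase_of_mem hiS]
    rw [disjoint_left]
    intro w hw hw'
    exact (mem_compl.1 (mem_filter.1 hw').1) (mem_erase.1 hw).2
  have hsum : ∑ i ∈ S, dg G i = S.card * (S.card - 1) +
      ∑ k ∈ Sᶜ, (S.filter fun i => G.Adj k i).card := by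
    rw [sum_congr rfl hdeg, sum_add_distrib, sum_const, smul_eq_mul]
    congr 1
    simp only [card_filter]
    rw [sum_comm]
  have h1 := h S
  have h2 : ∑ i ∈ Sᶜ, min (d i) S.card ≤ ∑ k ∈ Sᶜ, (S.filter fun i => G.Adj k i).card :=
    sum_le_sum hout
  have h3 : ∑ i ∈ S, dg G i < ∑ i ∈ S, d i :=
    sum_lt_sum (fun i _ => hG i) ⟨r, (hS r).2 le_rfl, hr⟩
  omega

end main

/-- Erdős–Gallai, for antitone sequences -/
theorem eg_fin {n : ℕ} {d : Fin n → ℕ} (hd : Antitone d) (heven : Even (∑ i, d i))
    (h : ∀ S : Finset (Fin n),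
      ∑ i ∈ S, d i ≤ S.card * (S.card - 1) + ∑ i ∈ Sᶜ, min (d i) S.card) :
    ∃ G : SimpleGraph (Fin n), ∀ v, dg G v = d v := by
  let X : Finset (SimpleGraph (Fin n)) := univ.filter fun G => ∀ v, dg G v ≤ d v
  have hX : X.Nonempty := by
    refine ⟨⊥, ?_⟩
    rw [mem_filter]
    refine ⟨mem_univ _, fun v => ?_⟩
    unfold dg
    simp
  obtain ⟨G, hGX, hmax⟩ := Finset.exists_max_image X (fun G => toLex (dg G)) hX
  rw [mem_filter] at hGX
  have hG := hGX.2
  by_cases hall : ∀ v, dg G v = d v
  · exact ⟨G, hall⟩
  · exfalso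
    push Not at hall
    have hne : (univ.filter fun v => dg G v < d v).Nonempty := by
      obtain ⟨v, hv⟩ := hall
      exact ⟨v, by rw [mem_filter]; exact ⟨mem_univ _, lt_of_le_of_ne (hG v) hv⟩⟩
    set r := (univ.filter fun v => dg G v < d v).min' hne with hr'
    have hr := (mem_filter.1 (Finset.min'_mem _ hne)).2
    rw [← hr'] at hr
    have hi : ∀ i < r, dg G i = d i := by
      intro i hir
      by_contra hc
      have := Finset.min'_le (univ.filter fun v => dg G v < d v) i
        (by rw [mem_filter]; exact ⟨mem_univ _, lt_of_le_of_ne (hG i) hc⟩)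
      exact absurd hir (not_lt.2 this)
    refine no_def hd hG hr hi ?_ heven h
    intro G' h1 h2
    by_contra hlt
    push Not at hlt
    have h3 := hmax G' (by rw [mem_filter]; exact ⟨mem_univ _, h1⟩)
    refine absurd h3 (not_le.2 ?_)
    exact ⟨r, fun j hj => (h2 j hj).symm, hlt⟩

/-- **Erdős–Gallai** (sufficiency), for a finite type of vertices. -/
theorem eg {V : Type} [Fintype V] (d : V → ℕ) (heven : Even (∑ i, d i))
    (h : ∀ S : Finset V, ∑ i ∈ S, d i ≤ S.card * (S.card - 1) + ∑ i ∈ Sᶜ, min (d i) S.card) :
    ∃ G : SimpleGraph V, ∀ v, dg G v = d v := by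
  let e0 : V ≃ Fin (Fintype.card V) := Fintype.equivFin V
  let f : Fin (Fintype.card V) → ℕᵒᵈ := fun i => OrderDual.toDual (d (e0.symm i))
  let e : V ≃ Fin (Fintype.card V) := e0.trans (Tuple.sort f).symm
  have hd : Antitone (fun i => d (e.symm i)) := by
    intro i j hij
    have := Tuple.monotone_sort f hij
    exact this
  obtain ⟨G, hG⟩ := eg_fin hd (by
    have : ∑ i, d (e.symm i) = ∑ v, d v := Equiv.sum_comp e.symm d
    rw [this]
    exact heven) (by
    intro S
    have h1 := h (S.map e.symm.toEmbedding)
    rw [sum_map, card_map] at h1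
    have h2 : (S.map e.symm.toEmbedding)ᶜ = Sᶜ.map e.symm.toEmbedding := by
      ext v
      rw [mem_compl, mem_map_equiv, mem_map_equiv, mem_compl]
    rw [h2, sum_map] at h1
    exact h1)
  refine ⟨G.comap e, fun v => ?_⟩
  have h1 := hG (e v)
  simp only [Equiv.symm_apply_apply] at h1
  rw [← h1]
  unfold dg
  refine card_bij (fun w _ => e w) ?_ ?_ ?_
  · intro w hw
    simpa using hw
  · intro a _ b _ hab
    exact e.injective hab
  · intro b hb
    refine ⟨e.symm b, ?_, by simp⟩
    simpa using hb

end Pool.Agent.V11225.IM
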