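import Pool.Agent.V11225.IM.Imb

/-!
# If all imbalances are positive then they are the degrees of a graph
-/

namespace Pool.Agent.V11225.IM

open Finset Classical

variable {V : Type} [Fintype V]

theorem imb_graphic (G : SimpleGraph V) (hpos : ∀ e ∈ ed G, 0 < imb G e) :
    ∃ H : SimpleGraph ↥(ed G), ∀ e, dg H e = imb G e.1 := by
  refine eg (V := ↥(ed G)) (fun e => imb G e.1) ?_ ?_
  · have h := even_sum G
    rw [← sum_coe_sort (ed G)] at h
    exact h
  · intro S
    have hS : S.map (Function.Embedding.subtype _) ⊆ ed G := by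
      intro e he
      obtain ⟨x, _, rfl⟩ := mem_map.1 he
      exact x.2
    have h := main_ineq G hpos hS
    have h1 : ∑ e ∈ S.map (Function.Embedding.subtype _), imb G e = ∑ e ∈ S, imb G e.1 := by
      rw [sum_map]
      rfl
    have h2 : ed G \ S.map (Function.Embedding.subtype _) =
        Sᶜ.map (Function.Embedding.subtype _) := by
      ext e
      rw [mem_sdiff, mem_map, mem_map]
      constructor
      · rintro ⟨h3, h4⟩
        refine ⟨⟨e, h3⟩, ?_, rfl⟩
        rw [mem_compl]
        exact fun h5 => h4 ⟨⟨e, h3⟩, h5, rfl⟩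
      · rintro ⟨x, hx, rfl⟩
        refine ⟨x.2, ?_⟩
        rintro ⟨y, hy, hxy⟩
        rw [mem_compl] at hx
        exact hx (by rwa [Subtype.ext hxy] at hy)
    have h3 : ∑ e ∈ Sᶜ.map (Function.Embedding.subtype _), min (imb G e) S.card =
        ∑ e ∈ Sᶜ, min (imb G e.1) S.card := by
      rw [sum_map]
      rfl
    rw [h1, h2, card_map, h3] at h
    have h5 : ∀ i1 i2 : DecidableEq ↥(ed G),
        @compl _ (@BooleanAlgebra.toCompl _ (@Finset.booleanAlgebra _ _ i1)) S =
          @compl _ (@BooleanAlgebra.toCompl _ (@Finset.booleanAlgebra _ _ i2)) S := by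
      intro i1 i2
      rw [Subsingleton.elim i1 i2]
    rw [h5 _ (fun a b => Classical.propDecidable (a = b))] at h
    exact h

end Pool.Agent.V11225.IM
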