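import Pool.Agent.V11225.IM.EG

/-!
# The imbalances of the edges satisfy the Erdős–Gallai inequalities
-/

namespace Pool.Agent.V11225.IM

open Finset Classical

variable {V : Type} [Fintype V]

/-- the imbalance of an edge -/
noncomputable def imb (G : SimpleGraph V) (e : Sym2 V) : ℕ :=
  Sym2.lift ⟨fun u v => ((dg G u : ℤ) - dg G v).natAbs, fun u v => by
    show ((dg G u : ℤ) - dg G v).natAbs = ((dg G v : ℤ) - dg G u).natAbs
    omega⟩ e

theorem imb_mk (G : SimpleGraph V) (u v : V) :
    imb G s(u, v) = ((dg G u : ℤ) - dg G v).natAbs := rfl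

/-- the edges -/
noncomputable def ed (G : SimpleGraph V) : Finset (Sym2 V) := univ.filter fun e => e ∈ G.edgeSet

theorem mem_ed {G : SimpleGraph V} {e : Sym2 V} : e ∈ ed G ↔ e ∈ G.edgeSet := by
  unfold ed; simp

/-- the edges which contain a vertex of `T` but not `u` -/
noncomputable def Fe (G : SimpleGraph V) (u : V) (T : Finset V) : Finset (Sym2 V) :=
  (ed G).filter fun e => u ∉ e ∧ ∃ w ∈ T, w ∈ e

theorem card_Fe (G : SimpleGraph V) (u : V) (T : Finset V) (hT : u ∉ T) :
    2 * ∑ w ∈ T, dg G w ≤ 2 * (Fe G u T).card + T.card * (T.card + 1) := by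
  induction T using Finset.induction_on with
  | empty => simp
  | @insert w T hw ih =>
    rw [mem_insert, not_or] at hT
    have ih := ih hT.2
    let X : Finset V := (univ.filter fun x => G.Adj w x) \ insert u T
    have hX : dg G w ≤ X.card + (1 + T.card) := by
      have h1 : (univ.filter fun x => G.Adj w x).card - (insert u T).card ≤ X.card :=
        le_card_sdiff _ _
      have h2 : (insert u T).card ≤ T.card + 1 := card_insert_le _ _
      unfold dg
      omega
    have hinj : Set.InjOn (fun x => s(w, x)) (X : Set V) := by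
      intro x _ y _ h
      exact Sym2.congr_right.1 h
    have h3 : Fe G u T ∪ X.image (fun x => s(w, x)) ⊆ Fe G u (insert w T) := by
      intro e he
      rw [mem_union] at he
      rcases he with he | he
      · unfold Fe at he ⊢
        rw [mem_filter] at he ⊢
        obtain ⟨h1, h2, z, hz, hz'⟩ := he
        exact ⟨h1, h2, z, mem_insert_of_mem hz, hz'⟩
      · obtain ⟨x, hx, rfl⟩ := mem_image.1 he
        rw [mem_sdiff, mem_filter, mem_insert, not_or] at hx
        obtain ⟨⟨_, h1⟩, h2, h3⟩ := hx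
        unfold Fe
        rw [mem_filter, mem_ed]
        refine ⟨h1, ?_, w, mem_insert_self _ _, Sym2.mem_mk_left _ _⟩
        rw [Sym2.mem_iff]
        rintro (h | h)
        · exact hT.1 h
        · exact h2 h.symm
    have hdis : Disjoint (Fe G u T) (X.image (fun x => s(w, x))) := by
      rw [disjoint_left]
      intro e he he'
      obtain ⟨x, hx, rfl⟩ := mem_image.1 he'
      unfold Fe at he
      rw [mem_filter] at he
      obtain ⟨_, _, z, hz, hz'⟩ := he
      rw [mem_sdiff, mem_insert, not_or] at hx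
      rw [Sym2.mem_iff] at hz'
      rcases hz' with h | h
      · rw [h] at hz; exact hw hz
      · rw [h] at hz; exact hx.2.2 hz
    have h4 := card_le_card h3
    rw [card_union_of_disjoint hdis, card_image_of_injOn hinj] at h4
    rw [sum_insert hw, card_insert_of_notMem hw]
    nlinarith

/-- the final inequality -/
theorem arith {k a d ν Q R TT F F' : ℕ} (ha : 1 ≤ a) (hak : a ≤ k) (hkd : k + 1 ≤ d)
    (hν : ν + a ≤ d) (h1 : ν * d ≤ Q + R) (h2 : k * (d - a - ν) + R + F ≤ TT)
    (h3 : F' ≤ F + (k - a)) (h4 : 2 * Q ≤ 2 * F' + ν * (ν + 1)) : k * (d - k) ≤ TT := by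
  obtain ⟨p, rfl⟩ := Nat.exists_eq_add_of_le hak
  obtain ⟨q, rfl⟩ := Nat.exists_eq_add_of_le (show a + p ≤ d by omega)
  obtain ⟨t, ht⟩ := Nat.exists_eq_add_of_le hν
  have e1 : a + p + q - a - ν = t := by omega
  have e2 : a + p - a = p := by omega
  have e3 : a + p + q - (a + p) = q := by omega
  rw [e1] at h2
  rw [e2] at h3
  rw [e3]
  have ht' : p + q = ν + t := by omega
  have hq : 1 ≤ q := by omega
  -- 2 TT ≥ 2 k t + 2 ν d - ν (ν + 1) - 2 p
  have h5 : 2 * ((a + p) * t) + 2 * (ν * (a + p + q)) ≤ 2 * TT + ν * (ν + 1) + 2 * p := by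
    nlinarith
  -- 2 (k - 1) p + ν (2 q - ν - 1) ≥ 0
  have key : ν * (ν + 1) + 2 * p ≤ 2 * ((a + p) * p) + 2 * (ν * q) := by
    rcases Nat.lt_or_ge ν (2 * q) with h | h
    · have h6 : ν * (ν + 1) ≤ ν * (2 * q) := Nat.mul_le_mul_left _ h
      have h7 : p ≤ (a + p) * p := Nat.le_mul_of_pos_left _ (by omega)
      nlinarith
    · -- q ≤ p
      have hqp : 2 * q ≤ ν := h
      have hνpq : ν ≤ p + q := by omega
      have hap : (1 + p) * p ≤ (a + p) * p := Nat.mul_le_mul_right _ (by omega)
      obtain ⟨x, hx⟩ := Nat.exists_eq_add_of_le hqp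
      obtain ⟨y, hy⟩ := Nat.exists_eq_add_of_le hνpq
      have hp : p = q + x + y := by omega
      subst hp
      subst hx
      nlinarith [Nat.zero_le (x * q), Nat.zero_le (x * y), Nat.zero_le (y * q),
        Nat.zero_le (x * x), Nat.zero_le (y * y), Nat.mul_le_mul_left q hq]
  have h8 : ν * q + ν * (a + p) = ν * (a + p + q) := by ring
  have h9 : (a + p) * (p + q) = (a + p) * (ν + t) := by rw [ht']
  nlinarith

theorem main_ineq (G : SimpleGraph V) (hpos : ∀ e ∈ ed G, 0 < imb G e) {S : Finset (Sym2 V)}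
    (hS : S ⊆ ed G) : ∑ e ∈ S, imb G e ≤ S.card * (S.card - 1) +
      ∑ e ∈ ed G \ S, min (imb G e) S.card := by
  by_cases hsm : ∀ e ∈ S, imb G e ≤ S.card - 1
  · have h0 : ∑ e ∈ S, imb G e ≤ S.card • (S.card - 1) :=
      Finset.sum_le_card_nsmul S (imb G) (S.card - 1) hsm
    rw [smul_eq_mul] at h0
    exact h0.trans (Nat.le_add_right _ _)
  push Not at hsm
  obtain ⟨e1, he1, hlt⟩ := hsm
  obtain ⟨e0, he0, hmax⟩ := Finset.exists_max_image S (imb G) ⟨e1, he1⟩
  have hk : S.card ≤ imb G e0 := by have := hmax e1 he1; omega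
  have hS1 : 1 ≤ S.card := card_pos.2 ⟨e0, he0⟩
  obtain ⟨u, v, huv, hdeg⟩ : ∃ u v, e0 = s(u, v) ∧ dg G v < dg G u := by
    induction e0 using Sym2.ind with
    | _ x y =>
      rw [imb_mk] at hk
      rcases lt_trichotomy (dg G x) (dg G y) with h | h | h
      · exact ⟨y, x, Sym2.eq_swap, h⟩
      · omega
      · exact ⟨x, y, rfl, h⟩
  subst huv
  have hadj : G.Adj u v := mem_ed.1 (hS he0)
  have hv1 : 1 ≤ dg G v := by
    unfold dg
    exact card_pos.2 ⟨u, by simpa using hadj.symm⟩
  rw [imb_mk] at hk hmax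
  set k := S.card with hkdef
  set Nu : Finset V := univ.filter fun w => G.Adj u w with hNu
  have hd : Nu.card = dg G u := rfl
  set A := Nu.filter fun w => s(u, w) ∈ S with hA
  set W := Nu.filter fun w => s(u, w) ∉ S with hW
  have hAW : A.card + W.card = dg G u := by
    rw [← hd]
    exact Finset.card_filter_add_card_filter_not _
  have hmemNu : ∀ w, w ∈ Nu ↔ G.Adj u w := fun w => by rw [hNu]; simp
  have injU : ∀ T : Finset V, Set.InjOn (fun w => s(u, w)) (T : Set V) := by
    intro T x _ y _ h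
    exact Sym2.congr_right.1 h
  -- the edges of `S` at `u`
  have hSu : (S.filter fun e => u ∈ e) = A.image (fun w => s(u, w)) := by
    ext e
    rw [mem_filter, mem_image]
    constructor
    · rintro ⟨h1, h2⟩
      obtain ⟨w, rfl⟩ := Sym2.mem_iff_exists.1 h2
      refine ⟨w, ?_, rfl⟩
      rw [hA, mem_filter, hmemNu]
      exact ⟨mem_ed.1 (hS h1), h1⟩
    · rintro ⟨w, hw, rfl⟩
      rw [hA, mem_filter] at hw
      exact ⟨hw.2, Sym2.mem_mk_left _ _⟩
  have hcA : (S.filter fun e => u ∈ e).card = A.card := by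
    rw [hSu, card_image_of_injOn (injU A)]
  have hSsplit : A.card + (S.filter fun e => u ∉ e).card = k := by
    rw [← hcA, hkdef]
    exact Finset.card_filter_add_card_filter_not _
  have hA1 : 1 ≤ A.card := card_pos.2 ⟨v, by rw [hA, mem_filter, hmemNu]; exact ⟨hadj, he0⟩⟩
  set Nr := W.filter fun w => ((dg G u : ℤ) - dg G w).natAbs < k with hNr
  have hNrW : Nr ⊆ W := filter_subset _ _
  have huW : u ∉ W := by
    intro h
    rw [hW, mem_filter, hmemNu] at h
    exact h.1.ne rfl
  -- the part of the edges at `u`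
  have hpart1 : k * (W.card - Nr.card) + ∑ w ∈ Nr, ((dg G u : ℤ) - dg G w).natAbs ≤
      ∑ w ∈ W, min (imb G s(u, w)) k := by
    rw [← sum_sdiff hNrW]
    refine add_le_add ?_ ?_
    · have h1 : ∀ w ∈ W \ Nr, k ≤ min (imb G s(u, w)) k := by
        intro w hw
        have hn : ¬ (((dg G u : ℤ) - dg G w).natAbs < k) := fun h =>
          (mem_sdiff.1 hw).2 (mem_filter.2 ⟨(mem_sdiff.1 hw).1, h⟩)
        rw [imb_mk]
        exact le_min (not_lt.1 hn) le_rfl
      have h2 := Finset.card_nsmul_le_sum (W \ Nr) (fun w => min (imb G s(u, w)) k) k h1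
      rw [smul_eq_mul, card_sdiff_of_subset hNrW, mul_comm] at h2
      exact h2
    · refine sum_le_sum fun w hw => ?_
      rw [hNr, mem_filter] at hw
      rw [imb_mk]
      exact le_min le_rfl hw.2.le
  -- the edges near `Nr`
  set F := (Fe G u Nr) \ S with hF
  have hFsum : F.card ≤ ∑ e ∈ F, min (imb G e) k := by
    rw [card_eq_sum_ones]
    refine sum_le_sum fun e he => ?_
    rw [hF, mem_sdiff] at he
    have h1 := hpos e (mem_filter.1 he.1).1
    exact le_min h1 hS1
  have hdisj : Disjoint (W.image fun w => s(u, w)) F := by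
    rw [disjoint_left]
    intro e he he'
    obtain ⟨w, _, rfl⟩ := mem_image.1 he
    rw [hF, mem_sdiff] at he'
    exact (mem_filter.1 he'.1).2.1 (Sym2.mem_mk_left _ _)
  have hsub : (W.image fun w => s(u, w)) ∪ F ⊆ ed G \ S := by
    intro e he
    rw [mem_union] at he
    rcases he with he | he
    · obtain ⟨w, hw, rfl⟩ := mem_image.1 he
      rw [hW, mem_filter, hmemNu] at hw
      exact mem_sdiff.2 ⟨mem_ed.2 hw.1, hw.2⟩
    · rw [hF, mem_sdiff] at he
      exact mem_sdiff.2 ⟨(mem_filter.1 he.1).1, he.2⟩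
  have htot : ∑ w ∈ W, min (imb G s(u, w)) k + ∑ e ∈ F, min (imb G e) k ≤
      ∑ e ∈ ed G \ S, min (imb G e) k := by
    rw [← sum_image (f := fun e => min (imb G e) k) (injU W), ← sum_union hdisj]
    exact sum_le_sum_of_subset hsub
  have hF' : (Fe G u Nr).card ≤ F.card + (k - A.card) := by
    have h1 : Fe G u Nr ⊆ F ∪ S.filter fun e => u ∉ e := by
      intro e he
      rw [mem_union, hF, mem_sdiff, mem_filter]
      by_cases heS : e ∈ S
      · exact Or.inr ⟨heS, (mem_filter.1 he).2.1⟩
      · exact Or.inl ⟨he, heS⟩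
    have h2 := card_le_card h1
    have h3 := card_union_le F (S.filter fun e => u ∉ e)
    omega
  have hFe := card_Fe G u Nr (fun h => huW (hNrW h))
  have hQR : Nr.card * dg G u ≤ ∑ w ∈ Nr, dg G w +
      ∑ w ∈ Nr, ((dg G u : ℤ) - dg G w).natAbs := by
    rw [← sum_add_distrib]
    have h1 : ∀ w ∈ Nr, dg G u ≤ dg G w + ((dg G u : ℤ) - dg G w).natAbs := by
      intro w _
      omega
    have h2 := Finset.card_nsmul_le_sum Nr _ _ h1
    rw [smul_eq_mul] at h2
    exact h2
  have hNrc := card_le_card hNrW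
  have hWA : W.card = dg G u - A.card := by omega
  rw [hWA] at hpart1
  have hfin := arith (k := k) (a := A.card) (d := dg G u) (ν := Nr.card)
    (Q := ∑ w ∈ Nr, dg G w) (R := ∑ w ∈ Nr, ((dg G u : ℤ) - dg G w).natAbs)
    (TT := ∑ e ∈ ed G \ S, min (imb G e) k) (F := F.card) (F' := (Fe G u Nr).card)
    hA1 (by omega) (by omega) (by omega) hQR (by omega) hF' hFe
  -- the sum over `S`
  have hsumS : ∑ e ∈ S, imb G e ≤ k * (dg G u - 1) := by
    have h1 : ∀ e ∈ S, imb G e ≤ dg G u - 1 := by
      intro e he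
      have := hmax e he
      omega
    have h2 := Finset.sum_le_card_nsmul S (imb G) _ h1
    rw [smul_eq_mul] at h2
    exact h2
  have hsplit : k * (dg G u - 1) = k * (k - 1) + k * (dg G u - k) := by
    rw [← mul_add]
    congr 1
    omega
  omega

/-- the sum of the imbalances is even -/
theorem even_sum (G : SimpleGraph V) : Even (∑ e ∈ ed G, imb G e) := by
  have h1 : ∀ (H : SimpleGraph V) (f : V → ℕ),
      ∑ v, f v * dg H v = ∑ e ∈ ed H, Sym2.lift ⟨fun u v => f u + f v, fun u v => add_comm _ _⟩ e := by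
    intro H f
    have h2 : ∀ v, f v * dg H v = ∑ e ∈ ed H, if v ∈ e then f v else 0 := by
      intro v
      rw [← sum_filter, sum_const, smul_eq_mul, mul_comm]
      congr 1
      unfold dg
      refine card_bij (fun w _ => s(v, w)) ?_ ?_ ?_
      · intro w hw
        rw [mem_filter] at hw
        rw [mem_filter, mem_ed]
        exact ⟨hw.2, Sym2.mem_mk_left _ _⟩
      · intro a _ b _ hab
        exact Sym2.congr_right.1 hab
      · intro e he
        rw [mem_filter, mem_ed] at he
        obtain ⟨w, rfl⟩ := Sym2.mem_iff_exists.1 he.2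
        exact ⟨w, by rw [mem_filter]; exact ⟨mem_univ _, he.1⟩, rfl⟩
    simp only [h2]
    rw [sum_comm]
    refine sum_congr rfl fun e he => ?_
    rw [mem_ed] at he
    induction e using Sym2.ind with
    | _ x y =>
      have hne : x ≠ y := (show H.Adj x y from he).ne
      rw [Sym2.lift_mk]
      have : ∀ v, (if v ∈ s(x, y) then f v else 0) = (if v = x then f v else 0) +
          (if v = y then f v else 0) := by
        intro v
        simp only [Sym2.mem_iff]
        by_cases hx : v = x
        · subst hx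
          simp [hne]
        · by_cases hy : v = y
          · subst hy
            simp [Ne.symm hne]
          · simp [hx, hy]
      simp only [this]
      rw [sum_add_distrib, sum_ite_eq', sum_ite_eq']
      simp
  have h3 := h1 G (dg G)
  have h4 : Even (∑ v, dg G v * dg G v) := by
    have h5 := sum_dg_even G
    have h6 : ∑ v, dg G v * dg G v + ∑ v, dg G v = ∑ v, dg G v * (dg G v + 1) := by
      rw [← sum_add_distrib]
      exact sum_congr rfl fun v _ => by ring
    have h7 : Even (∑ v, dg G v * (dg G v + 1)) :=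
      Finset.even_sum _ fun v _ => Nat.even_mul_succ_self _
    rw [← h6] at h7
    exact (Nat.even_add.1 h7).2 h5
  rw [h3] at h4
  -- same parity
  have h8 : ∀ e ∈ ed G, Even (imb G e +
      Sym2.lift ⟨fun u v => dg G u + dg G v, fun u v => add_comm _ _⟩ e) := by
    intro e _
    induction e using Sym2.ind with
    | _ x y =>
      change Even (((dg G x : ℤ) - dg G y).natAbs + (dg G x + dg G y))
      rw [Nat.even_iff]
      omega
  have h9 := Finset.even_sum _ h8
  rw [sum_add_distrib] at h9
  exact (Nat.even_add.1 h9).2 h4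

end Pool.Agent.V11225.IM
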